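import Mathlib
import Pool.Agent.R356.Four

set_option autoImplicit false

/-!
# Joint transcendence measures of `π + e`, `π - e`, `π e`, `π / e`

(1) Let `x` be `e`, `π` or the logarithm of a positive rational number different from `1`. If `u` and
`v` are complex numbers such that `x` is algebraic over `ℤ[u, v]` then for every `D` there are
`κ, C > 0` with `max (|P(u)|, |Q(v)|) ≥ C H ^ (-κ)` for all nonzero integer polynomials `P`, `Q` of
degree at most `D` whose coefficients have absolute value at most `H`.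

(2) This applies to any two of the four numbers `π + e`, `π - e`, `π e`, `π / e`.

(3) For every `D` there is `κ > 0` such that for all `ρ > 1` and `w > κ ρ` the four numbers together
have at most `log log X / log ρ + C` pairs of a number `u` and an irreducible integer polynomial `P`
of degree at most `D` and of height at most `X` with `|P(u)| ≤ (height P) ^ (-w)`.
-/

namespace Pool.Agent.Results.MP_a2f59b_nt.JointMeasure

open Polynomial

/-- the numbers `π + e`, `π - e`, `π e`, `π / e` -/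
noncomputable def num : Fin 4 → ℝ :=
  ![Real.pi + Real.exp 1, Real.pi - Real.exp 1, Real.pi * Real.exp 1, Real.pi / Real.exp 1]

/-- the largest absolute value of a coefficient -/
def height (P : ℤ[X]) : ℕ := P.support.sup fun i => (P.coeff i).natAbs

/-- In every degree the values of integer polynomials at `u` and at `v` are not both smaller than a
negative power of their coefficients. -/
def Joint (u v : ℂ) : Prop :=
  ∀ D : ℕ, ∃ κ C : ℝ, 0 < κ ∧ 0 < C ∧ ∀ P Q : ℤ[X], P ≠ 0 → Q ≠ 0 → P.natDegree ≤ D →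
    Q.natDegree ≤ D → ∀ H : ℝ, (∀ k, |((P.coeff k : ℤ) : ℝ)| ≤ H) →
    (∀ k, |((Q.coeff k : ℤ) : ℝ)| ≤ H) → C * H ^ (-κ) ≤ max ‖aeval u P‖ ‖aeval v Q‖

/-- the pairs `(i, P)` such that `P` is irreducible with positive leading coefficient, of degree at
most `D` and of height at most `X`, and `|P(num i)| ≤ (height P) ^ (-w)` -/
def near (D : ℕ) (w X : ℝ) : Set (Fin 4 × ℤ[X]) :=
  {p | Irreducible p.2 ∧ p.2.natDegree ≤ D ∧ 0 < p.2.leadingCoeff ∧
    |aeval (num p.1) p.2| ≤ (height p.2 : ℝ) ^ (-w) ∧ (height p.2 : ℝ) ≤ X}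

/-- **Joint transcendence measures.** See the text at the beginning of the file. -/
theorem result :
    (∀ x u v : ℂ, (x = (Real.exp 1 : ℝ) ∨ x = (Real.pi : ℝ) ∨
        ∃ q : ℚ, 0 < q ∧ q ≠ 1 ∧ x = (Real.log q : ℝ)) →
      IsAlgebraic (Algebra.adjoin ℤ ({u, v} : Set ℂ)) x → Joint u v) ∧
    (∀ i j : Fin 4, i ≠ j → Joint (num i : ℝ) (num j : ℝ)) ∧
    (∀ D : ℕ, ∃ κ : ℝ, 0 < κ ∧ ∀ w ρ : ℝ, 1 < ρ → ρ < w / κ → ∃ C : ℝ, ∀ X : ℝ, 3 ≤ X →
      (near D w X).Finite ∧
      ((near D w X).ncard : ℝ) ≤ Real.log (Real.log X) / Real.log ρ + C) := by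
  refine ⟨fun x u v hx h D => ?_, fun i j hij D => ?_, fun D => ?_⟩
  · have hm : Pool.Agent.TH456.TM.MeasT x := by
      rcases hx with rfl | rfl | ⟨q, hq, hq1, rfl⟩
      · exact Pool.Agent.TH456.TM.measT_e
      · exact Pool.Agent.TH456.TM.measT_pi
      · exact Pool.Agent.TH456.TM.measT_real_log q hq hq1
    obtain ⟨κ, C, hκ, hC, hj⟩ := Pool.Agent.R356.joint x hm u v h D
    exact ⟨κ, C, hκ, hC, fun P Q hP hQ hPD hQD H hPH hQH =>
      hj P Q hP hQ hPD hQD H (Pool.Agent.R356.one_le_of_coeff P hP H hPH) hPH hQH⟩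
  · obtain ⟨κ, C, hκ, hC, hj⟩ := (Pool.Agent.R356.four i j hij).1 D
    refine ⟨κ, C, hκ, hC, fun P Q hP hQ hPD hQD H hPH hQH => ?_⟩
    rw [← Pool.Agent.TH456.TM.abs_aeval, ← Pool.Agent.TH456.TM.abs_aeval]
    exact hj P Q hP hQ hPD hQD H hPH hQH
  · obtain ⟨κ, hκ, h⟩ := Pool.Agent.R356.sparse_joint (Finset.univ : Finset (Fin 4))
      Pool.Agent.R356.num (fun i _ j _ hij => (Pool.Agent.R356.four i j hij).1) D
    refine ⟨κ, hκ, fun w ρ hρ hρw => ?_⟩
    obtain ⟨C, hC⟩ := h w ρ hρ hρw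
    refine ⟨C, fun X hX => ?_⟩
    have hset : near D w X = {p : Fin 4 × ℤ[X] | p.1 ∈ (Finset.univ : Finset (Fin 4)) ∧
        Irreducible p.2 ∧ p.2.natDegree ≤ D ∧ 0 < p.2.leadingCoeff ∧
        |aeval (Pool.Agent.R356.num p.1) p.2| ≤ (Pool.Agent.TH456.TM.ht p.2 : ℝ) ^ (-w) ∧
        (Pool.Agent.TH456.TM.ht p.2 : ℝ) ≤ X} := by
      ext p
      constructor
      · rintro ⟨a2, a3, a4, a5, a6⟩
        exact ⟨Finset.mem_univ _, a2, a3, a4, a5, a6⟩
      · rintro ⟨_, a2, a3, a4, a5, a6⟩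
        exact ⟨a2, a3, a4, a5, a6⟩
    rw [hset]
    exact hC X hX

end Pool.Agent.Results.MP_a2f59b_nt.JointMeasure
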