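import Mathlib
import Pool.Agent.R356.SimulFam

set_option autoImplicit false

/-!
# Simultaneous rational approximations of two of the numbers `π + e`, `π - e`, `π e`, `π / e`

(1) If `u` and `v` are two different ones of the four numbers then for every `ε > 0` there is `C > 0`
such that `max (|u - p/n|, |v - r/n|) ≥ C n ^ (-(τ + ε))` for all integers `p`, `r` and `n ≥ 1`, where
`τ = 3` for the pairs `{π + e, π e}` and `{π - e, π e}` and `τ = 2` for the four other pairs.

(2) Let `ρ > 1` and `w > 3 ρ + 3`. There are at most `log log X / log ρ + C` pairs of one of the four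
numbers `u` and a rational number `p/q` in lowest terms with `q ≤ X` and `|u - p/q| ≤ q ^ (-w)`.
-/

namespace Pool.Agent.Results.MP_a2f59b_nt.SimultaneousApproximations

/-- the numbers `π + e`, `π - e`, `π e`, `π / e` -/
noncomputable def num : Fin 4 → ℝ :=
  ![Real.pi + Real.exp 1, Real.pi - Real.exp 1, Real.pi * Real.exp 1, Real.pi / Real.exp 1]

/-- the exponent of simultaneous rational approximations of `u` and `v` is at most `τ` -/
def Simul (u v τ : ℝ) : Prop :=
  ∀ ε : ℝ, 0 < ε → ∃ C : ℝ, 0 < C ∧ ∀ (p r : ℤ) (n : ℕ), 0 < n →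
    C * (n : ℝ) ^ (-(τ + ε)) ≤ max |u - p / n| |v - r / n|

/-- the pairs `(i, x)` with `x = p/q` in lowest terms, `q ≤ X` and `|num i - p/q| ≤ q ^ (-w)` -/
def good (w X : ℝ) : Set (Fin 4 × ℚ) :=
  {p | |num p.1 - p.2| ≤ (p.2.den : ℝ) ^ (-w) ∧ (p.2.den : ℝ) ≤ X}

/-- **Simultaneous rational approximations.** See the text at the beginning of the file. -/
theorem result :
    (Simul (Real.pi + Real.exp 1) (Real.pi - Real.exp 1) 2 ∧
      Simul (Real.pi + Real.exp 1) (Real.pi / Real.exp 1) 2 ∧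
      Simul (Real.pi - Real.exp 1) (Real.pi / Real.exp 1) 2 ∧
      Simul (Real.pi * Real.exp 1) (Real.pi / Real.exp 1) 2 ∧
      Simul (Real.pi + Real.exp 1) (Real.pi * Real.exp 1) 3 ∧
      Simul (Real.pi - Real.exp 1) (Real.pi * Real.exp 1) 3) ∧
    (∀ w ρ : ℝ, 1 < ρ → 3 * ρ + 3 < w → ∃ C : ℝ, ∀ X : ℝ, 3 ≤ X → (good w X).Finite ∧
      ((good w X).ncard : ℝ) ≤ Real.log (Real.log X) / Real.log ρ + C) := by
  refine ⟨⟨Pool.Agent.R356.s_add_sub, Pool.Agent.R356.s_add_div, Pool.Agent.R356.s_sub_div,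
    Pool.Agent.R356.s_mul_div, Pool.Agent.R356.s_add_mul, Pool.Agent.R356.s_sub_mul⟩, ?_⟩
  intro w ρ hρ hw
  obtain ⟨C, hC⟩ := Pool.Agent.R356.sparse_simul Pool.Agent.R356.num 3 (by norm_num)
    Pool.Agent.R356.simul_four w ρ hρ (by linarith)
  exact ⟨C, fun X hX => hC X hX⟩

end Pool.Agent.Results.MP_a2f59b_nt.SimultaneousApproximations
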