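import Pool.Agent.R523.CritArr
import Pool.Agent.W472.AC.EMeas2

/-!
# A criterion of Gelfond type for the pair `(e, t)`
-/

set_option autoImplicit false

namespace Pool.Agent.Results.MP_a2f59b_nt.UniformCriterion

open Finset Polynomial Filter

/-- the value at `(e, t)` of the integer polynomial with coefficients `a i j`, of degree at most
`m` in the first and at most `n` in the second variable -/
noncomputable def val (m n : ℕ) (t : ℂ) (a : Fin (m + 1) → Fin (n + 1) → ℤ) : ℂ :=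
  ∑ i, ∑ j, (a i j : ℂ) * (Real.exp 1 : ℂ) ^ (i : ℕ) * t ^ (j : ℕ)

/-- some nonzero integer polynomial with coefficients at most `X` in absolute value has a value at
`(e, t)` of absolute value at most `X ^ (-w)` -/
def Small (m n : ℕ) (t : ℂ) (w X : ℝ) : Prop :=
  ∃ a : Fin (m + 1) → Fin (n + 1) → ℤ, a ≠ 0 ∧ (∀ i j, |(a i j : ℝ)| ≤ X) ∧
    ‖val m n t a‖ ≤ X ^ (-w)

/-- some nonzero integer polynomial vanishes at `(e, t)` -/
def Rel (m n : ℕ) (t : ℂ) : Prop :=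
  ∃ a : Fin (m + 1) → Fin (n + 1) → ℤ, a ≠ 0 ∧ val m n t a = 0

theorem hard (m n : ℕ) (hn : 1 ≤ n) (t : ℂ) (w : ℝ) (hw : (4 * m * n ^ 2 + 2 * n - 1 : ℝ) < w)
    (X₀ : ℝ) (h : ∀ X, X₀ ≤ X → Small m n t w X) : Rel m n t := by
  obtain ⟨η, hη, hηw⟩ : ∃ η : ℝ, 0 < η ∧ 2 * n * η < w - (4 * m * n ^ 2 + 2 * n - 1) := by
    have hnR : (1 : ℝ) ≤ n := by exact_mod_cast hn
    refine ⟨(w - (4 * m * n ^ 2 + 2 * n - 1)) / (4 * n), div_pos (by linarith) (by positivity), ?_⟩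
    have h1 : 2 * (n : ℝ) * ((w - (4 * m * n ^ 2 + 2 * n - 1)) / (4 * n)) =
        (w - (4 * m * n ^ 2 + 2 * n - 1)) / 2 := by
      field_simp
      ring
    rw [h1]
    linarith
  obtain ⟨c, hc, hmeas⟩ := Pool.Agent.W472.AC.e_measP (2 * n * m) η hη
  refine Pool.Agent.R523.Gel.crit_arr (Real.exp 1 : ℂ) t m n hn (((2 * n * m : ℕ) : ℝ) + η) c
    (by positivity) hc (fun R hR hRd H hH hRH => ?_) w ?_ X₀ h
  · have h1 := hmeas R hR hRd H hH hRH
    have h2 : ‖aeval (Real.exp 1 : ℂ) R‖ = |aeval (Real.exp 1) R| := by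
      have h3 : aeval (Real.exp 1 : ℂ) R = ((aeval (Real.exp 1) R : ℝ) : ℂ) := by
        have := aeval_algebraMap_apply ℂ (Real.exp 1) R
        simpa using this
      rw [h3, Complex.norm_real, Real.norm_eq_abs]
    rw [h2]
    exact h1
  · push_cast
    nlinarith

/-- (1) `Small` for all large `X` with an exponent larger than `4mn² + 2n - 1` happens only for
related numbers; (2) the same for sequences; (3) the case of `π` and `m = n = 1`. -/
theorem result :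
    (∀ m n : ℕ, 1 ≤ n → ∀ (t : ℂ) (w : ℝ), (4 * m * n ^ 2 + 2 * n - 1 : ℝ) < w →
      ((∃ X₀ : ℝ, ∀ X, X₀ ≤ X → Small m n t w X) ↔ Rel m n t)) ∧
    (∀ m n : ℕ, 1 ≤ n → ∀ (t : ℂ) (l w : ℝ), 1 ≤ l → l * (4 * m * n ^ 2 + 2 * n - 1) < w →
      ∀ X : ℕ → ℝ, (∀ k, 1 ≤ X k) → Tendsto X atTop atTop → (∀ k, X (k + 1) ≤ X k ^ l) →
        (∀ k, Small m n t w (X k)) → Rel m n t) ∧
    ((∃ a b c d : ℤ, ¬ (a = 0 ∧ b = 0 ∧ c = 0 ∧ d = 0) ∧
        a + b * Real.exp 1 + c * Real.pi + d * (Real.exp 1 * Real.pi) = 0) ∨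
      ∀ w : ℝ, 5 < w → ∀ X₀ : ℝ, ∃ X : ℝ, X₀ ≤ X ∧ ∀ a b c d : ℤ,
        ¬ (a = 0 ∧ b = 0 ∧ c = 0 ∧ d = 0) → |(a : ℝ)| ≤ X → |(b : ℝ)| ≤ X → |(c : ℝ)| ≤ X →
          |(d : ℝ)| ≤ X →
            X ^ (-w) < |a + b * Real.exp 1 + c * Real.pi + d * (Real.exp 1 * Real.pi)|) := by
  refine ⟨fun m n hn t w hw => ⟨fun ⟨X₀, h⟩ => hard m n hn t w hw X₀ h, ?_⟩, ?_, ?_⟩
  · rintro ⟨a, ha0, ha⟩
    refine ⟨1 + ∑ i, ∑ j, |(a i j : ℝ)|, fun X hX => ⟨a, ha0, fun i j => ?_, ?_⟩⟩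
    · have h1 : |(a i j : ℝ)| ≤ ∑ j, |(a i j : ℝ)| :=
        Finset.single_le_sum (f := fun j => |(a i j : ℝ)|) (fun _ _ => abs_nonneg _) (mem_univ j)
      have h2 : ∑ j, |(a i j : ℝ)| ≤ ∑ i, ∑ j, |(a i j : ℝ)| :=
        Finset.single_le_sum (f := fun i => ∑ j, |(a i j : ℝ)|)
          (fun _ _ => Finset.sum_nonneg fun _ _ => abs_nonneg _) (mem_univ i)
      linarith
    · rw [ha, norm_zero]
      have h1 : 0 ≤ ∑ i, ∑ j, |(a i j : ℝ)| :=
        Finset.sum_nonneg fun _ _ => Finset.sum_nonneg fun _ _ => abs_nonneg _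
      exact Real.rpow_nonneg (by linarith) _
  · intro m n hn t l w hl hw X hX1 hX hXl h
    have hnR : (1 : ℝ) ≤ n := by exact_mod_cast hn
    have hmR : (0 : ℝ) ≤ m := Nat.cast_nonneg m
    have hpos : (0 : ℝ) < 4 * m * n ^ 2 + 2 * n - 1 := by nlinarith [mul_nonneg hmR (sq_nonneg (n : ℝ))]
    have hl0 : 0 < l := by linarith
    have hw0 : 0 ≤ w := by nlinarith [mul_pos hl0 hpos]
    refine hard m n hn t (w / l) ?_ (X 0) fun Y hY =>
      Pool.Agent.R523.Gel.of_seq (fun X w => Small m n t w X) ?_ l w hl0 hw0 X hX1 hX hXl h Y hY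
    · rw [lt_div_iff₀ hl0]
      linarith [mul_comm l (4 * m * n ^ 2 + 2 * n - 1 : ℝ)]
    · rintro X Y w w' _ hXY hww ⟨a, ha0, haX, hav⟩
      exact ⟨a, ha0, fun i j => (haX i j).trans hXY, hav.trans hww⟩
  · have key : ∀ a : Fin 2 → Fin 2 → ℤ, val 1 1 (Real.pi : ℂ) a =
        ((a 0 0 + a 1 0 * Real.exp 1 + a 0 1 * Real.pi + a 1 1 * (Real.exp 1 * Real.pi) : ℝ) : ℂ) := by
      intro a
      unfold val
      rw [Fin.sum_univ_two, Fin.sum_univ_two, Fin.sum_univ_two]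
      push_cast
      simp
      ring
    by_cases hrel : Rel 1 1 (Real.pi : ℂ)
    · left
      obtain ⟨a, ha0, ha⟩ := hrel
      refine ⟨a 0 0, a 1 0, a 0 1, a 1 1, ?_, ?_⟩
      · rintro ⟨h1, h2, h3, h4⟩
        apply ha0
        funext i j
        fin_cases i <;> fin_cases j
        · exact h1
        · exact h3
        · exact h2
        · exact h4
      · rw [key] at ha
        exact_mod_cast ha
    · right
      intro w hw X₀
      by_contra hcon
      push Not at hcon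
      refine hrel (hard 1 1 le_rfl (Real.pi : ℂ) w (by push_cast; linarith) X₀ fun X hX => ?_)
      obtain ⟨a, b, c, d, h0, ha, hb, hc, hd, h⟩ := hcon X hX
      refine ⟨![![a, c], ![b, d]], ?_, ?_, ?_⟩
      · intro h1
        have h2 := congrFun h1 0
        have h3 := congrFun h1 1
        have h4 := congrFun h2 0
        have h5 := congrFun h2 1
        have h6 := congrFun h3 0
        have h7 := congrFun h3 1
        simp at h4 h5 h6 h7
        tauto
      · intro i j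
        fin_cases i <;> fin_cases j
        · simpa using ha
        · simpa using hc
        · simpa using hb
        · simpa using hd
      · rw [key, Complex.norm_real, Real.norm_eq_abs]
        simpa using h

end Pool.Agent.Results.MP_a2f59b_nt.UniformCriterion
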